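import Pool.Agent.W845.DH.Stm

set_option autoImplicit false
open scoped Classical
open scoped BigOperators

namespace Pool.Agent.W481.DH

open Pool.Agent.W845.DH

theorem ew_add {α : Type} (E : Finset α) (p : ℝ) (f g : Finset α → ℝ) :
    EW E p (fun R => f R + g R) = EW E p f + EW E p g := by
  unfold EW
  rw [← Finset.sum_add_distrib]
  exact Finset.sum_congr rfl fun R _ => by ring

theorem ew_mul {α : Type} (E : Finset α) (p c : ℝ) (f : Finset α → ℝ) :
    EW E p (fun R => c * f R) = c * EW E p f := by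
  unfold EW
  rw [Finset.mul_sum]
  exact Finset.sum_congr rfl fun R _ => by ring

theorem ew_sum {α ι : Type} (E : Finset α) (p : ℝ) (s : Finset ι) (f : ι → Finset α → ℝ) :
    EW E p (fun R => ∑ i ∈ s, f i R) = ∑ i ∈ s, EW E p (f i) := by
  unfold EW
  rw [Finset.sum_comm]
  exact Finset.sum_congr rfl fun R _ => by rw [Finset.mul_sum]

theorem card_eq {α : Type} (R B : Finset α) :
    ((R ∩ B).card : ℝ) = ∑ e ∈ B, (if e ∈ R then (1 : ℝ) else 0) := by
  rw [Finset.sum_ite, Finset.sum_const_zero, add_zero, Finset.sum_const, nsmul_eq_mul, mul_one]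
  congr 1
  rw [Finset.filter_mem_eq_inter, Finset.inter_comm]

theorem cheb : S_EW → S_CHEB := by
  rintro ⟨h1, h2, _, h4, h5⟩ α E B p hBE hp hp1 hB
  set N : ℝ := (B.card : ℝ) with hN
  have hNpos : 0 < N := by
    rw [hN]
    exact_mod_cast Finset.card_pos.mpr hB
  set μ : ℝ := p * N with hμ
  have hμpos : 0 < μ := mul_pos hp hNpos
  have hZ : EW E p (fun R => ((R ∩ B).card : ℝ)) = μ := by
    have : (fun R : Finset α => ((R ∩ B).card : ℝ)) =
        fun R => ∑ e ∈ B, (if e ∈ R then (1 : ℝ) else 0) := by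
      funext R
      exact card_eq R B
    rw [this, ew_sum E p B (fun e R => if e ∈ R then (1 : ℝ) else 0)]
    rw [Finset.sum_congr rfl fun e he => h4 α E p e (hBE he)]
    rw [Finset.sum_const, nsmul_eq_mul, hμ]
    ring
  have hZ2 : EW E p (fun R => ((R ∩ B).card : ℝ) ^ 2) = N * p + N * (N - 1) * p ^ 2 := by
    have : (fun R : Finset α => ((R ∩ B).card : ℝ) ^ 2) =
        fun R => ∑ e ∈ B, ∑ e' ∈ B, (if e ∈ R ∧ e' ∈ R then (1 : ℝ) else 0) := by
      funext R
      rw [card_eq R B, sq, Finset.sum_mul_sum]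
      refine Finset.sum_congr rfl fun e _ => Finset.sum_congr rfl fun e' _ => ?_
      by_cases ha : e ∈ R <;> by_cases hb : e' ∈ R <;> simp [ha, hb]
    rw [this, ew_sum E p B (fun e R => ∑ e' ∈ B, (if e ∈ R ∧ e' ∈ R then (1 : ℝ) else 0))]
    have hrow : ∀ e ∈ B, EW E p (fun R => ∑ e' ∈ B, (if e ∈ R ∧ e' ∈ R then (1 : ℝ) else 0)) =
        p + (N - 1) * p ^ 2 := by
      intro e he
      rw [ew_sum E p B (fun e' R => if e ∈ R ∧ e' ∈ R then (1 : ℝ) else 0)]
      rw [← Finset.add_sum_erase B _ he]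
      have ha : EW E p (fun R => if e ∈ R ∧ e ∈ R then (1 : ℝ) else 0) = p := by
        have hh := h4 α E p e (hBE he)
        simpa only [and_self] using hh
      rw [ha]
      rw [Finset.sum_congr rfl fun e' he' => h5 α E p e e' (hBE he)
        (hBE (Finset.mem_of_mem_erase he')) (Finset.ne_of_mem_erase he').symm]
      rw [Finset.sum_const, nsmul_eq_mul, Finset.card_erase_of_mem he, Nat.cast_sub
        (Finset.card_pos.mpr hB), Nat.cast_one]
    rw [Finset.sum_congr rfl hrow, Finset.sum_const, nsmul_eq_mul]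
    ring
  have hvar : EW E p (fun R => (4 / μ ^ 2) * (((R ∩ B).card : ℝ) - μ) ^ 2) =
      (4 / μ ^ 2) * (N * p * (1 - p)) := by
    rw [ew_mul]
    congr 1
    have : (fun R : Finset α => (((R ∩ B).card : ℝ) - μ) ^ 2) =
        fun R => ((R ∩ B).card : ℝ) ^ 2 + ((-2 * μ) * ((R ∩ B).card : ℝ) + μ ^ 2 * 1) := by
      funext R
      ring
    rw [this, ew_add E p (fun R => ((R ∩ B).card : ℝ) ^ 2)
      (fun R => (-2 * μ) * ((R ∩ B).card : ℝ) + μ ^ 2 * 1),
      ew_add E p (fun R => (-2 * μ) * ((R ∩ B).card : ℝ)) (fun R => μ ^ 2 * 1),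
      ew_mul E p (-2 * μ) (fun R => ((R ∩ B).card : ℝ)), ew_mul E p (μ ^ 2) (fun _ => 1), h1, hZ,
      hZ2, hμ]
    ring
  calc EW E p (fun R => if 2 * ((R ∩ B).card : ℝ) ≤ p * B.card then 1 else 0)
      ≤ EW E p (fun R => (4 / μ ^ 2) * (((R ∩ B).card : ℝ) - μ) ^ 2) := by
        refine h2 α E p _ _ hp.le hp1 fun R _ => ?_
        split_ifs with hle
        · have hle' : 2 * ((R ∩ B).card : ℝ) ≤ μ := hle
          have h3 : μ ^ 2 / 4 ≤ (((R ∩ B).card : ℝ) - μ) ^ 2 := by nlinarith
          rw [div_mul_eq_mul_div, le_div_iff₀ (by positivity)]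
          linarith
        · positivity
    _ = (4 / μ ^ 2) * (N * p * (1 - p)) := hvar
    _ ≤ 4 / (p * B.card) := by
        have : (4 / μ ^ 2) * (N * p * (1 - p)) = 4 / μ * (1 - p) := by
          rw [hμ]
          field_simp
        rw [this]
        have h6 : (0 : ℝ) < 4 / μ := by positivity
        have : 4 / μ * (1 - p) ≤ 4 / μ * 1 := by
          apply mul_le_mul_of_nonneg_left _ h6.le
          linarith
        calc 4 / μ * (1 - p) ≤ 4 / μ * 1 := this
          _ = 4 / (p * B.card) := by rw [mul_one]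

end Pool.Agent.W481.DH

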